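import Mathlib
import Pool.Agent.Lib.MP_1f4710_co.Defs
import Pool.Agent.Lib.MP_1f4710_co.Base

namespace Pool.Agent.Results.MP_1f4710_co.LowerBound

open Pool.Agent.Lib.MP_1f4710_co

lemma good_dim (e K : ℕ) :
    Good (Fin (e + 2) → ℝ) K fun k => (e + 2 + k - 1).choose (e + 2) + extra e k := by
  induction e with
  | zero =>
    refine ((good_plane tau_off_inj K).transport
      (ContinuousLinearEquiv.ofFinrankEq (by simp))).mono fun k _ => ?_
    refine Nat.add_le_add (le_of_eq ?_) (extra_zero_le k)
    rw [show 0 + 2 + k - 1 = k + 1 by omega, Nat.choose_succ_succ', Nat.choose_one_right]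
  | succ e ih =>
    refine (ih.step.transport (ContinuousLinearEquiv.ofFinrankEq (by simp))).mono fun k _ => ?_
    have h0 : ∀ e, extra e 0 = 0 := by
      intro e
      induction e with
      | zero => simp [extra]
      | succ e ih => simp [extra, ih]
    have h1 : ∑ j ∈ Finset.range k, (e + 2 + (j + 1) - 1).choose (e + 2)
        = (e + 1 + 2 + k - 1).choose (e + 1 + 2) := by
      induction k with
      | zero => simp
      | succ k ih =>
        rw [Finset.sum_range_succ, ih (by omega), show e + 1 + 2 + (k + 1) - 1 = (e + 2 + k) + 1 by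
          omega, show e + 1 + 2 = (e + 2) + 1 by omega, Nat.choose_succ_succ',
          show e + 2 + 1 + k - 1 = e + 2 + k by omega, show e + 2 + (k + 1) - 1 = e + 2 + k by omega,
          add_comm]
    rw [Finset.sum_add_distrib, h1, extra, Finset.sum_range_succ', h0, add_zero]

/-- For `d ≥ 2` and `k ≥ 1` the maximal number of modes of a mixture of `k` normal densities in
dimension `d` is at least `binom (d + k - 1) d + extra (d - 2) k`. -/
theorem result (d k : ℕ) (hd : 2 ≤ d) (hk : 1 ≤ k) :
    (((d + k - 1).choose d + extra (d - 2) k : ℕ) : ℕ∞) ≤ maxModes d k := by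
  obtain ⟨e, rfl⟩ : ∃ e, d = e + 2 := ⟨d - 2, by omega⟩
  exact (good_dim e k).le_maxModes hk

end Pool.Agent.Results.MP_1f4710_co.LowerBound
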