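import Mathlib
import Pool.Agent.Lib.MP_1f4710_co.HDefs
import Pool.Agent.Lib.MP_1f4710_co.HEx

namespace Pool.Agent.Results.MP_1f4710_co.Homoscedastic3

open Pool.Agent.Lib.MP_1f4710_co

/-- For `d ≥ 2` the maximal number of modes of a mixture of three normal densities with a common
covariance matrix in dimension `d` is `4`. -/
theorem result (d : ℕ) (hd : 2 ≤ d) : homModes d 3 = 4 :=
  le_antisymm (Hom.homModes_le d)
    ((Hom.le_orthoModes (n := 2) le_rfl hd).trans (Hom.ortho_le_hom d 3))

end Pool.Agent.Results.MP_1f4710_co.Homoscedastic3
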