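import Pool.Agent.Lib.MP_1f4710_co.IsoFinal

namespace Pool.Agent.Results.MP_1f4710_co.IsotropicExp

open Pool.Agent.Lib.MP_1f4710_co

/-- If `d < 2 ^ m` and `4 ^ m ≤ k`, some mixture of `k` normal densities on `ℝ ^ d` with identity
covariance (and equal weights when `k = 4 ^ m`) has at least `2 ^ d` modes. -/
theorem result (d m k : ℕ) (hd : 1 ≤ d) (hm : d < 2 ^ m) (hk : 4 ^ m ≤ k) :
    ∃ (w : Fin k → ℝ) (μ : Fin k → Fin d → ℝ), (∀ i, 0 < w i) ∧ ∑ i, w i = 1 ∧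
      (k = 4 ^ m → ∀ i, w i = 1 / k) ∧
      ((2 ^ d : ℕ) : ℕ∞) ≤ (modes fun x => ∑ i, w i * gaussian (μ i) 1 x).encard :=
  Iso.any_number d m k hd hm hk

end Pool.Agent.Results.MP_1f4710_co.IsotropicExp
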