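import Mathlib
import Pool.Agent.Lib.MP_1f4710_co.Defs
import Pool.Agent.Lib.MP_1f4710_co.UGauss

namespace Pool.Agent.Results.MP_1f4710_co.UpperBound

open Pool.Agent.Lib.MP_1f4710_co

/-- For `d, k ≥ 1` a mixture of `k` normal densities in dimension `d` has at most
`2 ^ binom (k - 1) 2 * (3 (k - 1) d + 2 k - 1) ^ (k - 1)` modes. -/
theorem result (d k : ℕ) (hd : 1 ≤ d) (hk : 1 ≤ k) :
    maxModes d k ≤
      ((2 ^ (k - 1).choose 2 * (3 * (k - 1) * d + 2 * k - 1) ^ (k - 1) : ℕ) : ℕ∞) := by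
  obtain ⟨l, rfl⟩ : ∃ l, k = l + 1 := ⟨k - 1, by omega⟩
  have e : 3 * (l + 1 - 1) * d + 2 * (l + 1) - 1 = l * (3 * d + 1) + (l + 1) := by
    rw [Nat.add_sub_cancel, mul_add l, show 3 * l * d = l * (3 * d) by ring]
    omega
  rw [e, Nat.add_sub_cancel]
  exact Upper.maxModes_le hd l

end Pool.Agent.Results.MP_1f4710_co.UpperBound
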